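import Pool.Agent.Lib.MP_b75bf2_nt.Main

/-!
# Essential components: an unbounded number of summands

Definitions (in `Pool.Agent.Lib.MP_b75bf2_nt`):

* `Essential B`: the Schnirelmann density of `A + B` is greater than that of `A` for every `A`
  containing `0` with density strictly between `0` and `1`;
* `Extraordinary B`: the ratio of the densities of `A + B` and `A` tends to infinity when the
  density of `A` tends to `0`;
* `sums B h`: all sums of finite lists of elements of `B` such that the number of summands is at
  most `h b` for every summand `b`.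
-/

set_option autoImplicit false
open Classical
open scoped Pointwise
open Pool.Agent.Lib.MP_b75bf2_nt

namespace Pool.Agent.Results.MP_b75bf2_nt.ManySummands

/-- For every essential component `B` there is `ρ > 1` such that, whenever `h b ≥ m` for all large
`b`, `σ(A + sums B h) ≥ ρ ^ m σ(A)` for all `A` of small positive density; hence `sums B h` is an
extraordinary component for every `h` tending to infinity. -/
theorem result (B : Set ℕ) (h0 : 0 ∈ B) (hB : Essential B) :
    (∃ ρ : ℝ, 1 < ρ ∧ ∀ (h : ℕ → ℕ) (m : ℕ), (∀ᶠ b in Filter.atTop, m ≤ h b) →
      ∃ δ : ℝ, 0 < δ ∧ ∀ A : Set ℕ, 0 ∈ A → 0 < schnirelmannDensity A →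
        schnirelmannDensity A < δ →
          ρ ^ m * schnirelmannDensity A ≤ schnirelmannDensity (A + sums B h)) ∧
    ∀ h : ℕ → ℕ, Filter.Tendsto h Filter.atTop Filter.atTop → Extraordinary (sums B h) :=
  ⟨main h0 hB, fun h hh => extraordinary h0 hB h hh⟩

end Pool.Agent.Results.MP_b75bf2_nt.ManySummands
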