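import Pool.Agent.Lib.MP_b75bf2_nt.FL.FIN

/-!
# Essential components of `F_2[t]` and small sets (MP_b75bf2_nt)

The model of the question in which the integers in `[0, 2 ^ n)` are replaced by the polynomials of
degree `< n` over the field with two elements: the sumset of a set `A` of at most `2 ^ ((1 - c) n)` such
polynomials and of the part of degree `< n` of an essential component has more than `M |A|` elements,
for every `M` and all large `n`.
-/

namespace Pool.Agent.Results.MP_b75bf2_nt.PolynomialModel

open Pool.Agent.Lib.MPb75bf2.FL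
open scoped Pointwise

theorem result (B : Set (Polynomial (ZMod 2))) (h0 : 0 ∈ B) (hB : EssentialPoly B)
    (M c : ℝ) (hc : 0 < c) :
    ∃ n0 : ℕ, ∀ n ≥ n0, ∀ A : Set (Polynomial (ZMod 2)), A ⊆ PL n → A.Nonempty →
      (A.ncard : ℝ) ≤ (2 : ℝ) ^ ((1 - c) * (n : ℝ)) →
      M * (A.ncard : ℝ) < ((A + (B ∩ PL n)).ncard : ℝ) :=
  fle B h0 hB M c hc

end Pool.Agent.Results.MP_b75bf2_nt.PolynomialModel
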