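import Pool.Agent.Lib.MP_b75bf2_nt.RND.All

/-!
# Random sets: essential components are extraordinary

Definitions (in `Pool.Agent.Lib.MP_b75bf2_nt.Uniform`):

* `Essential B`: the Schnirelmann density of `A + B` is greater than that of `A` for every `A`
  containing `0` with density strictly between `0` and `1`;
* `Extraordinary B`: the ratio of the densities of `A + B` and `A` tends to infinity when the
  density of `A` tends to `0`.

The random set is `{n | n = 0 ∨ ω n = true}`, where `ω : ℕ → Bool` is distributed according to the
product of the Bernoulli measures which give mass `p n` to `true` and `1 - p n` to `false`.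
-/

set_option autoImplicit false
open Classical MeasureTheory ProbabilityTheory
open scoped Pointwise
open Pool.Agent.Lib.MP_b75bf2_nt

namespace Pool.Agent.Results.MP_b75bf2_nt.RandomSets

/-- Let `p 1 ≥ p 2 ≥ ...` and let the random set `B` contain `0` and, independently, every `n ≥ 1`
with probability `p n`. Then `B` is almost surely not an essential component, or `B` is almost
surely an extraordinary component. In particular, almost surely, if `B` is an essential component
then it is an extraordinary component. -/
theorem result (p : ℕ → unitInterval) (hp : ∀ m n, 1 ≤ m → m ≤ n → p n ≤ p m) :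
    ((∀ᵐ ω ∂(Measure.infinitePi fun n => bernoulliMeasure true false (p n)),
        ¬ Essential {n | n = 0 ∨ ω n = true}) ∨
      ∀ᵐ ω ∂(Measure.infinitePi fun n => bernoulliMeasure true false (p n)),
        Extraordinary {n | n = 0 ∨ ω n = true}) ∧
    ∀ᵐ ω ∂(Measure.infinitePi fun n => bernoulliMeasure true false (p n)),
      Essential {n | n = 0 ∨ ω n = true} → Extraordinary {n | n = 0 ∨ ω n = true} := by
  have h := RND.final _ _ _ _ (RND.InstM.specInst p hp)
  refine ⟨h, ?_⟩
  rcases h with h | h
  · filter_upwards [h] with ω hω hE
    exact absurd hE hω
  · filter_upwards [h] with ω hω _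
    exact hω

end Pool.Agent.Results.MP_b75bf2_nt.RandomSets
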