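import Pool.Agent.Lib.MP_b75bf2_nt.CAP.Windows
import Pool.Agent.Lib.MP_b75bf2_nt.CAP.Phase

/-!
# Essential components are not made of bounded signed sums of few numbers

Definition (in `Pool.Agent.Lib.MP_b75bf2_nt`):

* `Essential B`: the Schnirelmann density of `A + B` is greater than that of `A` for every `A`
  containing `0` with density strictly between `0` and `1`.
-/

set_option autoImplicit false
open Classical
open scoped Pointwise
open Pool.Agent.Lib.MP_b75bf2_nt

namespace Pool.Agent.Results.MP_b75bf2_nt.SignedSums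

/-- For every essential component `B` and every `s` there is `c > 0` such that, for all large `T`
and all `x ≥ 2 ^ T`: if every element `b ≤ x` of `B` is within `x / 2 ^ T` of a sum of at most `s`
real numbers each of which, or the negative of which, is in the finite set `E`, then `E` has at
least `T ^ (1 + c)` elements. -/
theorem result (B : Set ℕ) (h0 : 0 ∈ B) (hB : Essential B) (s : ℕ) :
    ∃ c : ℝ, 0 < c ∧ ∃ T₀ : ℕ, ∀ T : ℕ, T₀ ≤ T → ∀ x : ℕ, 2 ^ T ≤ x → ∀ E : Finset ℝ,
      (∀ b ∈ B, b ≤ x → ∃ l : List ℝ, l.length ≤ s ∧ (∀ e ∈ l, e ∈ E ∨ -e ∈ E) ∧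
        |(b : ℝ) - l.sum| * 2 ^ T ≤ x) →
      (T : ℝ) ^ (1 + c) ≤ E.card :=
  CAP.specFinal CAP.specBall (CAP.specWindow (CAP.specRare CAP.specCount))
    (CAP.specStep CAP.specBall) CAP.specPhase B h0 hB s

end Pool.Agent.Results.MP_b75bf2_nt.SignedSums
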